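import Pool.Agent.Q73.RH.Stm

/-!
# Project RH: basic facts about the projection to the sphere
-/

namespace Pool.Agent.Q149.RH

open Pool.Agent.Q73.RH MeasureTheory

lemma sumsq_nonneg (z : V) : 0 ≤ ∑ j, ‖z j‖ ^ 2 := Finset.sum_nonneg fun _ _ => sq_nonneg _

lemma sumsq_pos {z : V} (hz : z ≠ 0) : 0 < ∑ j, ‖z j‖ ^ 2 := by
  obtain ⟨i, hi⟩ := Function.ne_iff.1 hz
  have h1 : 0 < ‖z i‖ ^ 2 := by
    have : (0 : ℝ) < ‖z i‖ := norm_pos_iff.2 hi
    positivity
  exact lt_of_lt_of_le h1 (Finset.single_le_sum (f := fun j => ‖z j‖ ^ 2)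
    (fun _ _ => sq_nonneg _) (Finset.mem_univ i))

lemma norm_s_apply (z : V) (i : Fin 2) : ‖s z i‖ = ‖z i‖ / Real.sqrt (∑ j, ‖z j‖ ^ 2) := by
  unfold s
  rw [norm_div, Complex.norm_real, Real.norm_of_nonneg (Real.sqrt_nonneg _)]

lemma s_zero : s 0 = 0 := by
  funext i
  simp [s]

lemma norm_s_le (z : V) : ‖s z‖ ≤ 1 := by
  rw [pi_norm_le_iff_of_nonneg zero_le_one]
  intro i
  rw [norm_s_apply]
  apply div_le_one_of_le₀ _ (Real.sqrt_nonneg _)
  apply Real.le_sqrt_of_sq_le
  exact Finset.single_le_sum (f := fun j => ‖z j‖ ^ 2) (fun _ _ => sq_nonneg _)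
    (Finset.mem_univ i)

lemma s_mem {z : V} (hz : z ≠ 0) : s z ∈ S := by
  have h1 := sumsq_pos hz
  show ∑ i, ‖s z i‖ ^ 2 = 1
  simp only [norm_s_apply, div_pow, Real.sq_sqrt h1.le]
  rw [← Finset.sum_div, div_self h1.ne']

lemma measurable_s : Measurable s := by
  rw [measurable_pi_iff]
  intro i
  unfold s
  apply Measurable.div (measurable_pi_apply i)
  apply Complex.measurable_ofReal.comp
  apply Measurable.sqrt
  apply Finset.measurable_sum
  intro j _
  exact ((measurable_pi_apply j).norm).pow_const 2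

lemma continuous_sumsq : Continuous (fun z : V => ∑ j, ‖z j‖ ^ 2) := by
  apply continuous_finsetSum
  intro j _
  exact ((continuous_apply j).norm).pow 2

lemma measurableSet_B : MeasurableSet B :=
  (isClosed_le continuous_sumsq continuous_const).measurableSet

lemma norm_le_of_sumsq {z : V} (hz : ∑ j, ‖z j‖ ^ 2 ≤ 1) : ‖z‖ ≤ 1 := by
  rw [pi_norm_le_iff_of_nonneg zero_le_one]
  intro i
  have h1 : ‖z i‖ ^ 2 ≤ 1 := le_trans (Finset.single_le_sum (f := fun j => ‖z j‖ ^ 2)
    (fun _ _ => sq_nonneg _) (Finset.mem_univ i)) hz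
  exact (sq_le_one_iff₀ (norm_nonneg _)).1 h1

lemma volume_B_lt_top : volume B < ⊤ := by
  refine lt_of_le_of_lt (measure_mono (t := Metric.closedBall (0 : V) 1) ?_)
    (isCompact_closedBall (0 : V) 1).measure_lt_top
  intro z hz
  rw [mem_closedBall_zero_iff]
  exact norm_le_of_sumsq hz

instance : IsFiniteMeasure (volume.restrict B) :=
  ⟨by rw [Measure.restrict_apply_univ]; exact volume_B_lt_top⟩

lemma isClosed_S : IsClosed S := isClosed_eq continuous_sumsq continuous_const

lemma isCompact_S : IsCompact S := by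
  apply (isCompact_closedBall (0 : V) 1).of_isClosed_subset isClosed_S
  intro z hz
  rw [mem_closedBall_zero_iff]
  exact norm_le_of_sumsq (le_of_eq hz)

/-- A continuous function of `s z` is integrable. -/
lemma int_of_cont {E : Type*} [NormedAddCommGroup E] [SecondCountableTopology E]
    {f : V → E} (hf : Continuous f) :
    Integrable (fun z => f (s z)) (volume.restrict B) := by
  obtain ⟨C, hC⟩ := (isCompact_closedBall (0 : V) 1).exists_bound_of_continuousOn hf.continuousOn
  apply Integrable.of_bound (C := C)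
  · borelize E
    exact (hf.measurable.comp measurable_s).aestronglyMeasurable
  · apply Filter.Eventually.of_forall
    intro z
    apply hC
    rw [mem_closedBall_zero_iff]
    exact norm_s_le z

lemma continuous_eval (P : MvPolynomial (Fin 2) ℂ) :
    Continuous (fun z : V => MvPolynomial.eval z P) := MvPolynomial.continuous_eval P

/-- almost every point is different from zero -/
lemma ae_ne_zero : ∀ᵐ z ∂(volume.restrict B), z ≠ (0 : V) := by
  apply ae_restrict_of_ae
  have : (volume : Measure V) {0} = 0 := by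
    exact measure_singleton 0
  rw [ae_iff]
  simp

end Pool.Agent.Q149.RH
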